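import Pool.Agent.helper77.MC.Spec

/-! Row P2 of project MC (MP_7e34bc_co, Q2, middle range), statement by helper77. -/

set_option autoImplicit false

namespace Pool.Agent.helper77.MC

open Finset Numbering

theorem P2_pref {β : Type} [Fintype β] [DecidableEq β] (J : Finset β) :
    (#(prefixed J : Finset (Numbering β)) : ℝ) * ((Fintype.card β).choose #J : ℝ) =
      ((Fintype.card β).factorial : ℝ) := by
  have hle : #J ≤ Fintype.card β := Finset.card_le_univ J
  have h := Nat.choose_mul_factorial_mul_factorial hle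
  rw [card_prefixed]
  rw [← h]
  push_cast
  ring

theorem P2_swap {β : Type} [Fintype β] [DecidableEq β] (A : Finset (Finset β)) :
    ∑ f : Numbering β, ∑ J ∈ A, (if f ∈ prefixed J then ((Fintype.card β).choose #J : ℝ) else 0) =
      ((Fintype.card β).factorial : ℝ) * (#A : ℝ) := by
  rw [Finset.sum_comm]
  have h : ∀ J ∈ A, ∑ f : Numbering β,
      (if f ∈ prefixed J then ((Fintype.card β).choose #J : ℝ) else 0) =
        ((Fintype.card β).factorial : ℝ) := by
    intro J _
    rw [← Finset.sum_filter, Finset.filter_mem_eq_inter, Finset.univ_inter, Finset.sum_const,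
      nsmul_eq_mul]
    exact P2_pref J
  rw [Finset.sum_congr rfl h, Finset.sum_const, nsmul_eq_mul, mul_comm]

theorem P2 (h1 : FA_stmt) (h2 : GD_stmt) (h3 : BA_stmt) : P2_stmt := by
  classical
  intro β _ y c₁ c₂ m w hy hc1 hc2 hw hg1 hg2
  set g : ℕ → ℝ := fun j => ((Fintype.card β).choose j : ℝ) with hg
  set A1 := fam y c₁ (m + 1) with hA1
  set A2 := fam y c₂ (m + 1) with hA2
  set A3 := fam y (c₁ + c₂) m with hA3
  have hc : 0 < c₁ + c₂ := add_pos hc1 hc2
  let S : Finset (Finset β) → Numbering β → ℝ := fun A f =>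
    ∑ J ∈ A, (if f ∈ prefixed J then g #J else 0)
  have hS : ∀ A : Finset (Finset β), ∑ f : Numbering β, S A f =
      ((Fintype.card β).factorial : ℝ) * (#A : ℝ) := fun A => P2_swap A
  let F : Numbering β → ℝ := fun f => S A1 f + S A2 f + S A3 f
  have htot : ∑ f : Numbering β, F f =
      ((Fintype.card β).factorial : ℝ) * ((#A1 : ℝ) + #A2 + #A3) := by
    show ∑ f : Numbering β, (S A1 f + S A2 f + S A3 f) = _
    rw [Finset.sum_add_distrib, Finset.sum_add_distrib, hS, hS, hS]
    ring
  let H : Finset (Numbering β) := A3.biUnion fun t => prefixed t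
  have hdisj : ∀ t ∈ A3, ∀ t' ∈ A3, t ≠ t' →
      Disjoint (prefixed t : Finset (Numbering β)) (prefixed t') := by
    intro t ht t' ht' hne
    obtain ⟨_, hanti, _⟩ := h1 β y (c₁ + c₂) (c₁ + c₂) m m hy hc
    refine disjoint_prefixed_prefixed ?_ ?_
    · intro hs
      exact hne (hanti t ht t' ht' hs)
    · intro hs
      exact hne (hanti t' ht' t ht hs).symm
  have hH : ∑ f ∈ H, F f ≤ 2 * w * (#H : ℝ) := by
    have e1 : ∑ f ∈ H, F f = ∑ t ∈ A3, ∑ f ∈ (prefixed t : Finset (Numbering β)), F f :=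
      Finset.sum_biUnion fun t ht t' ht' hne => hdisj t ht t' ht' hne
    have e2 : (#H : ℝ) = ∑ t ∈ A3, (#(prefixed t : Finset (Numbering β)) : ℝ) := by
      have : #H = ∑ t ∈ A3, #(prefixed t : Finset (Numbering β)) :=
        Finset.card_biUnion fun t ht t' ht' hne => hdisj t ht t' ht' hne
      rw [this]
      push_cast
      rfl
    rw [e1, e2, Finset.mul_sum]
    refine Finset.sum_le_sum fun t ht => ?_
    exact h3 β y c₁ c₂ m w g hy hc1 hc2 hw hg1 hg2 t ht
  have hHc : ∑ f ∈ Hᶜ, F f ≤ 2 * w * (#Hᶜ : ℝ) := by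
    have hb : ∀ f ∈ Hᶜ, F f ≤ 2 * w := by
      intro f hf
      have hfH : f ∉ H := Finset.mem_compl.1 hf
      have e1 : S A1 f ≤ w := h2 β y c₁ (m + 1) w g hy hc1 hw hg1 f
      have e2 : S A2 f ≤ w := h2 β y c₂ (m + 1) w g hy hc2 hw hg1 f
      have e3 : S A3 f = 0 := by
        refine Finset.sum_eq_zero fun J hJ => ?_
        rw [if_neg]
        intro hfJ
        exact hfH (Finset.mem_biUnion.2 ⟨J, hJ, hfJ⟩)
      show S A1 f + S A2 f + S A3 f ≤ 2 * w
      linarith
    have h := Finset.sum_le_card_nsmul (Hᶜ) F (2 * w) hb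
    rw [nsmul_eq_mul] at h
    linarith
  have hcard : (#H : ℝ) + (#Hᶜ : ℝ) = ((Fintype.card β).factorial : ℝ) := by
    have h := Finset.card_add_card_compl H
    rw [Fintype.card_numbering] at h
    exact_mod_cast h
  have hsum : ∑ f ∈ H, F f + ∑ f ∈ Hᶜ, F f = ∑ f : Numbering β, F f :=
    Finset.sum_add_sum_compl H F
  have hpos : (0 : ℝ) < ((Fintype.card β).factorial : ℝ) := by
    exact_mod_cast Nat.factorial_pos _
  have hfin : ((Fintype.card β).factorial : ℝ) * ((#A1 : ℝ) + #A2 + #A3) ≤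
      ((Fintype.card β).factorial : ℝ) * (2 * w) := by
    rw [← htot, ← hsum, ← hcard]
    nlinarith
  exact le_of_mul_le_mul_left hfin hpos

end Pool.Agent.helper77.MC
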